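import Pool.Agent.V5helper15.EG.Bas

set_option autoImplicit false

/-!
# Project EG (helper51): job BADC (helper15)
-/

namespace Pool.Agent.V5helper15.EG

open Finset Filter MeasureTheory Topology
open Pool.Agent.V5helper51.PL Pool.Agent.V5helper51.EG Pool.Agent.V5helper68.PL
open Pool.Agent.N748.MG Pool.Agent.N748.MJ

/-- the product of the values of `|ζ(1 + ...)|` -/
lemma prod_bc (z : ℝ → ℝ) (C0 η δ k0 s A : ℝ) (N : ℕ) (hN : 1 ≤ N) (hη : 0 < η) (hη1 : η ≤ 3)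
    (hδ : 0 < δ) (hC0 : 1 ≤ C0) (hz : ∀ x, 0 ≤ z x) (hk0 : 0 < k0) (hs : 0 < s)
    (h0 : z 0 ≤ C0 / δ) (hA : 6 * (N : ℝ) ≤ A) (hx : ∀ x, η ≤ |x| → |x| ≤ A → z x ≤ C0 / η) :
    z 0 ^ (k0 ^ 2) * (∏ j : Fin N, z (2 * (((j : ℕ) : ℝ) + 1) * η) ^ (2 * (k0 * (s / N)))) *
      ∏ j : Fin N, ∏ l : Fin N,
        z (2 * (((j : ℕ) : ℝ) + 1) * η - 2 * (((l : ℕ) : ℝ) + 1) * η) ^ (s / N * (s / N)) ≤
      (C0 / δ) ^ (k0 ^ 2) * (C0 / η) ^ (2 * k0 * s) * ((C0 / η) ^ (s ^ 2) * (η / δ) ^ (s ^ 2 / N)) := by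
  have hN0 : (0 : ℝ) < N := by exact_mod_cast hN
  have hCη : 0 ≤ C0 / η := by positivity
  have e1 : z 0 ^ (k0 ^ 2) ≤ (C0 / δ) ^ (k0 ^ 2) := Real.rpow_le_rpow (hz 0) h0 (by positivity)
  have hsh : ∀ i : Fin N, η ≤ |2 * (((i : ℕ) : ℝ) + 1) * η| ∧ |2 * (((i : ℕ) : ℝ) + 1) * η| ≤ A := by
    intro i
    have hi : ((i : ℕ) : ℝ) + 1 ≤ N := by exact_mod_cast i.isLt
    have hi0 : (0 : ℝ) ≤ ((i : ℕ) : ℝ) := by positivity
    rw [abs_of_pos (by positivity)]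
    constructor
    · nlinarith
    · refine le_trans ?_ hA
      nlinarith [mul_le_mul hi hη1 hη.le hN0.le]
  have e3 : ∏ i : Fin N, z (2 * (((i : ℕ) : ℝ) + 1) * η) ^ (2 * (k0 * (s / N))) ≤
      (C0 / η) ^ (2 * k0 * s) := by
    refine (Finset.prod_le_prod (fun i _ => Real.rpow_nonneg (hz _) _) fun i _ =>
      Real.rpow_le_rpow (hz _) (hx _ (hsh i).1 (hsh i).2)
        (by positivity : 0 ≤ 2 * (k0 * (s / N)))).trans ?_
    rw [Finset.prod_const, Finset.card_univ, Fintype.card_fin, ← Real.rpow_natCast,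
      ← Real.rpow_mul hCη]
    apply le_of_eq
    congr 1
    field_simp
  have e4 := block3 z C0 η δ (s / N) A N hN hη hη1 hδ hC0 hz h0 hA hx
  have e4' : ∏ i : Fin N, ∏ l : Fin N,
      z (2 * (((i : ℕ) : ℝ) + 1) * η - 2 * (((l : ℕ) : ℝ) + 1) * η) ^ (s / N * (s / N)) ≤
      (C0 / η) ^ (s ^ 2) * (η / δ) ^ (s ^ 2 / N) := by
    refine e4.trans (le_of_eq ?_)
    congr 2
    · field_simp
    · field_simp
  have p1 : 0 ≤ ∏ i : Fin N, z (2 * (((i : ℕ) : ℝ) + 1) * η) ^ (2 * (k0 * (s / N))) :=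
    Finset.prod_nonneg fun i _ => Real.rpow_nonneg (hz _) _
  have p3 : 0 ≤ ∏ i : Fin N, ∏ l : Fin N,
      z (2 * (((i : ℕ) : ℝ) + 1) * η - 2 * (((l : ℕ) : ℝ) + 1) * η) ^ (s / N * (s / N)) :=
    Finset.prod_nonneg fun i _ => Finset.prod_nonneg fun l _ => Real.rpow_nonneg (hz _) _
  exact mul_le_mul (mul_le_mul e1 e3 p1 (by positivity)) e4' p3 (by positivity)

/-- the exponents -/
lemma expo_bc (C0 δ V s k ε c K : ℝ) (N : ℕ) (hN : 1 ≤ N) (hδ : 0 < δ) (hC0 : 1 ≤ C0)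
    (hk : 0 ≤ k) (hc : 0 < c) (hK : 0 < K) (hs : s = ε / 2) :
    (c * K * Real.exp (-(V - ε) * k)) ^ (-(2 * s)) * (c ^ (-(2 * (V - s))) *
      ((C0 / δ) ^ ((V - s) ^ 2) * (C0 / (δ * Real.exp k)) ^ (2 * (V - s) * s) *
        ((C0 / (δ * Real.exp k)) ^ (s ^ 2) * (δ * Real.exp k / δ) ^ (s ^ 2 / N)))) ≤
      C0 ^ (V ^ 2) * (K ^ (-ε) * (c ^ (-(2 * V)) * δ ^ (-V ^ 2)) * Real.exp (-(ε ^ 2 / 2) * k)) := by
  have hC : 0 < C0 := by linarith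
  have hN0 : (1 : ℝ) ≤ N := by exact_mod_cast hN
  have e1 : (C0 / δ) ^ ((V - s) ^ 2) = C0 ^ ((V - s) ^ 2) * δ ^ (-(V - s) ^ 2) := by
    rw [Real.div_rpow hC.le hδ.le, Real.rpow_neg hδ.le, div_eq_mul_inv]
  have e2 : (δ * Real.exp k / δ) ^ (s ^ 2 / N) = Real.exp (k * (s ^ 2 / N)) := by
    rw [mul_div_cancel_left₀ _ hδ.ne', ← Real.exp_mul]
  have e3 : (c * K * Real.exp (-(V - ε) * k)) ^ (-(2 * s)) =
      c ^ (-(2 * s)) * K ^ (-ε) * Real.exp (-(V - ε) * k * (-(2 * s))) := by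
    rw [Real.mul_rpow (by positivity) (Real.exp_pos _).le, Real.mul_rpow hc.le hK.le, ← Real.exp_mul]
    congr 3
    rw [hs]; ring
  have e5 : c ^ (-(2 * V)) = c ^ (-(2 * s)) * c ^ (-(2 * (V - s))) := by
    rw [← Real.rpow_add hc]; congr 1; ring
  have e6 : C0 ^ (V ^ 2) = C0 ^ ((V - s) ^ 2) * C0 ^ (2 * (V - s) * s) * C0 ^ (s ^ 2) := by
    rw [← Real.rpow_add hC, ← Real.rpow_add hC]; congr 1; ring
  have e7 : δ ^ (-V ^ 2) = δ ^ (-(V - s) ^ 2) * δ ^ (-(2 * (V - s) * s)) * δ ^ (-s ^ 2) := by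
    rw [← Real.rpow_add hδ, ← Real.rpow_add hδ]; congr 1; ring
  have e8 : Real.exp (-(V - ε) * k * (-(2 * s))) * (Real.exp (-(k * (2 * (V - s) * s))) *
      (Real.exp (-(k * s ^ 2)) * Real.exp (k * (s ^ 2 / N)))) ≤ Real.exp (-(ε ^ 2 / 2) * k) := by
    rw [← Real.exp_add, ← Real.exp_add, ← Real.exp_add]
    apply Real.exp_le_exp.2
    have h1 : s ^ 2 / N ≤ s ^ 2 := div_le_self (sq_nonneg s) hN0
    have h2 := mul_le_mul_of_nonneg_left h1 hk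
    have h3 : -(V - ε) * k * (-(2 * s)) + (-(k * (2 * (V - s) * s)) + (-(k * s ^ 2) + k * s ^ 2)) =
        -(ε ^ 2 / 2) * k := by
      rw [hs]; ring
    linarith
  rw [e1, e2, e3, rpow_scale C0 δ k _ hC hδ, rpow_scale C0 δ k _ hC hδ, e5, e6, e7]
  have h4 : (0:ℝ) ≤ C0 ^ ((V - s) ^ 2) * C0 ^ (2 * (V - s) * s) * C0 ^ (s ^ 2) *
      (K ^ (-ε) * (c ^ (-(2 * s)) * c ^ (-(2 * (V - s))) *
        (δ ^ (-(V - s) ^ 2) * δ ^ (-(2 * (V - s) * s)) * δ ^ (-s ^ 2)))) := by positivity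
  have h5 := mul_le_mul_of_nonneg_left e8 h4
  refine le_trans (le_of_eq ?_) (h5.trans (le_of_eq ?_))
  · have h6 : δ ^ (-(s ^ 2)) = δ ^ (-s ^ 2) := by rfl
    rw [h6]
    ring
  · ring

/-- BADC -/
theorem t_BADC (hA : ∀ V : ℝ, 0 < V → 0 < (aC V).re) (hT : S_TLT) (hZ : S_ZB1) : S_BADC := by
  intro V D ε hV hD hε hεV N hN
  have hN1 : (1 : ℝ) ≤ N := by exact_mod_cast hN
  have hN0 : (0 : ℝ) < N := by linarith
  obtain ⟨s, hs⟩ : ∃ s : ℝ, s = ε / 2 := ⟨_, rfl⟩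
  have hs0 : 0 < s := by rw [hs]; linarith
  have hk0 : 0 < V - s := by rw [hs]; linarith
  obtain ⟨c0, C0', δ1, -, hC0', hδ1, hZ1⟩ := hZ (6 * (N : ℝ) + 3) (by linarith)
  obtain ⟨C0, hC0⟩ : ∃ C0 : ℝ, C0 = max C0' 1 := ⟨_, rfl⟩
  have hC01 : 1 ≤ C0 := by rw [hC0]; exact le_max_right _ _
  have hC0le : C0' ≤ C0 := by rw [hC0]; exact le_max_left _ _
  have hC0p : 0 < C0 := by linarith
  obtain ⟨C2, hC2, hnu⟩ := nu_ge V hV (hA V hV)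
  obtain ⟨C1, hC1, lam, δ0, hlam, hδ0, hδ0', hEv⟩ := hT N (V - s) V D hk0 hV hD
  refine ⟨C1 * C0 ^ (V ^ 2) * C2, by positivity, lam, min δ0 δ1, hlam, lt_min hδ0 hδ1,
    (min_le_left _ _).trans hδ0', ?_⟩
  filter_upwards [hEv, eventually_ge_atTop ((6 * (N : ℝ)) ^ 2), eventually_gt_atTop 0] with X hX hX2 hX0
  intro δ hδ hδle hlog c K hc hK k hk hη1
  have d1 : δ ≤ δ0 := hδle.trans (min_le_left _ _)
  have d2 : δ ≤ δ1 := hδle.trans (min_le_right _ _)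
  have d4 : δ ≤ 1 / 16 := d1.trans hδ0'
  have hz : ∀ x, 0 ≤ z1 δ x := fun x => norm_nonneg _
  have hz0 : z1 δ 0 ≤ C0 / δ := by
    have := (hZ1 δ hδ d2 0 (by rw [abs_zero]; positivity)).2
    rw [abs_zero, max_eq_right hδ.le] at this
    rw [le_div_iff₀ hδ]
    exact this.trans hC0le
  obtain ⟨η, hη⟩ : ∃ η : ℝ, η = δ * Real.exp k := ⟨_, rfl⟩
  have hη0 : 0 < η := by rw [hη]; positivity
  rw [← hη] at hη1
  have hηδ : δ ≤ η := by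
    rw [hη]
    have := Real.one_le_exp hk
    nlinarith
  have hzη : ∀ x, η ≤ |x| → |x| ≤ 6 * (N : ℝ) + 3 → z1 δ x ≤ C0 / η := by
    intro x hx1 hx2
    have h1 := (hZ1 δ hδ d2 x hx2).2
    rw [le_div_iff₀ hη0]
    have h2 : η ≤ max |x| δ := hx1.trans (le_max_left _ _)
    have h3 := mul_le_mul_of_nonneg_left h2 (hz x)
    linarith
  obtain ⟨S, hSm, hSs, hSv, hSp, hSk⟩ := hX δ hδ d1 hlog
    (fun i : Fin N => 2 * (((i : ℕ) : ℝ) + 1) * η) (by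
    intro i
    refine le_trans ?_ (sqrt_ge3 hX2)
    have hi : ((i : ℕ) : ℝ) + 1 ≤ N := by exact_mod_cast i.isLt
    rw [abs_of_pos (by positivity)]
    nlinarith [mul_le_mul hi hη1 hη0.le hN0.le])
  have hsN : s / N ≤ V := (div_le_self hs0.le hN1).trans (by rw [hs]; linarith)
  obtain ⟨hint, hle⟩ := hSk (V - s) c (fun _ => s / N) le_rfl (by linarith) hc (by
    intro i
    rw [abs_of_pos (by positivity)]
    exact hsN)
  have hprod := prod_bc (z1 δ) C0 η δ (V - s) s (6 * (N : ℝ) + 3) N hN hη0 hη1 hδ hC01 hz hk0 hs0 hz0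
    (by linarith) hzη
  obtain ⟨b, hb'⟩ : ∃ b : ℝ, b = c * K * Real.exp (-(V - ε) * k) := ⟨_, rfl⟩
  have hb0 : 0 < b := by rw [hb']; positivity
  have hex := expo_bc C0 δ V s k ε c K N hN hδ hC01 hk hc hK hs
  rw [← hb', ← hη] at hex
  rw [← hb', ← hη]
  have hl0 : 0 ≤ Real.sqrt (Real.log (1 / δ)) := Real.sqrt_nonneg _
  have hGm : ∀ t, ∏ i : Fin N, mz δ (t + 2 * (((i : ℕ) : ℝ) + 1) * η) ^ (2 * (s / N)) =
      Gm δ N η t ^ (2 * s) := fun t => (Gm_rpow δ η t s N).symm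
  have hnu0 : 0 ≤ nu V δ c := by
    unfold nu
    have := hA V hV
    positivity
  refine finish (G := {t : ℝ | b < Gm δ N η t}) hδ d4 hX0 c hSm hSs hSv
    (fun t => b ^ (-(2 * s)) * ∏ i : Fin N, mz δ (t + 2 * (((i : ℕ) : ℝ) + 1) * η) ^ (2 * (s / N)))
    (hint.const_mul _) ?_ ?_ (by positivity) ?_
  · intro t _
    apply mul_nonneg (by positivity)
    exact Finset.prod_nonneg fun i _ => Real.rpow_nonneg (norm_nonneg _) _
  · intro t _ ht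
    change b < Gm δ N η t at ht
    change 1 ≤ b ^ (-(2 * s)) * ∏ i : Fin N, mz δ (t + 2 * (((i : ℕ) : ℝ) + 1) * η) ^ (2 * (s / N))
    rw [hGm, Real.rpow_neg hb0.le]
    have e3 : b ^ (2 * s) ≤ Gm δ N η t ^ (2 * s) :=
      Real.rpow_le_rpow hb0.le ht.le (by positivity)
    have p2 : 0 < b ^ (2 * s) := by positivity
    rw [inv_mul_eq_div]
    exact (one_le_div p2).2 e3
  · rw [integral_const_mul]
    have h1 := hle.trans (mul_le_mul_of_nonneg_left hprod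
      (by positivity : 0 ≤ C1 * X / Real.sqrt (Real.log (1 / δ)) * c ^ (-(2 * (V - s)))))
    have h2 := hnu δ c hδ d4 hc
    calc b ^ (-(2 * s)) * ∫ t in S ∩ {t : ℝ | c < mz δ t},
          ∏ i : Fin N, mz δ (t + 2 * (((i : ℕ) : ℝ) + 1) * η) ^ (2 * (s / N))
        ≤ b ^ (-(2 * s)) * (C1 * X / Real.sqrt (Real.log (1 / δ)) * c ^ (-(2 * (V - s))) *
          ((C0 / δ) ^ ((V - s) ^ 2) * (C0 / η) ^ (2 * (V - s) * s) *
            ((C0 / η) ^ (s ^ 2) * (η / δ) ^ (s ^ 2 / N)))) :=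
          mul_le_mul_of_nonneg_left h1 (by positivity)
      _ = C1 * X / Real.sqrt (Real.log (1 / δ)) * (b ^ (-(2 * s)) * (c ^ (-(2 * (V - s))) *
          ((C0 / δ) ^ ((V - s) ^ 2) * (C0 / η) ^ (2 * (V - s) * s) *
            ((C0 / η) ^ (s ^ 2) * (η / δ) ^ (s ^ 2 / N))))) := by ring
      _ ≤ C1 * X / Real.sqrt (Real.log (1 / δ)) * (C0 ^ (V ^ 2) *
          (K ^ (-ε) * (c ^ (-(2 * V)) * δ ^ (-V ^ 2)) * Real.exp (-(ε ^ 2 / 2) * k))) :=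
          mul_le_mul_of_nonneg_left hex (by positivity)
      _ = X * (C1 * C0 ^ (V ^ 2) * K ^ (-ε) * Real.exp (-(ε ^ 2 / 2) * k)) *
          (c ^ (-(2 * V)) * δ ^ (-V ^ 2) / Real.sqrt (Real.log (1 / δ))) := by ring
      _ ≤ X * (C1 * C0 ^ (V ^ 2) * K ^ (-ε) * Real.exp (-(ε ^ 2 / 2) * k)) * (C2 * nu V δ c) :=
          mul_le_mul_of_nonneg_left h2 (by positivity)
      _ = _ := by ring

end Pool.Agent.V5helper15.EG
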