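import Pool.Agent.V5helper51.EG.Stm
import Pool.Agent.V5helper68.PL.Bas

set_option autoImplicit false

/-!
# Project EG (helper51): lemmas for the jobs BADC and NEARC (helper15)
-/

namespace Pool.Agent.V5helper15.EG

open Finset Filter MeasureTheory Topology
open Pool.Agent.V5helper51.PL Pool.Agent.V5helper51.EG Pool.Agent.V5helper68.PL
open Pool.Agent.N748.MG Pool.Agent.N748.MJ

/-- the part of the double product with the auxiliary shifts, scales up to `3` -/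
lemma block3 (z : ℝ → ℝ) (C0 η δ κ A : ℝ) (N : ℕ) (hN : 1 ≤ N) (hη : 0 < η) (hη1 : η ≤ 3)
    (hδ : 0 < δ) (hC0 : 1 ≤ C0) (hz : ∀ x, 0 ≤ z x) (h0 : z 0 ≤ C0 / δ)
    (hA : 6 * (N : ℝ) ≤ A) (hx : ∀ x, η ≤ |x| → |x| ≤ A → z x ≤ C0 / η) :
    ∏ i : Fin N, ∏ l : Fin N, z (2 * (((i : ℕ) : ℝ) + 1) * η - 2 * (((l : ℕ) : ℝ) + 1) * η) ^ (κ * κ) ≤
      (C0 / η) ^ ((N : ℝ) ^ 2 * κ ^ 2) * (η / δ) ^ ((N : ℝ) * κ ^ 2) := by
  have hκ : 0 ≤ κ * κ := mul_self_nonneg κ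
  have hCη : 0 ≤ C0 / η := by positivity
  have hηδ : 0 ≤ η / δ := by positivity
  have hN0 : (0 : ℝ) < N := by exact_mod_cast hN
  have h1 : ∀ i l : Fin N, z (2 * (((i : ℕ) : ℝ) + 1) * η - 2 * (((l : ℕ) : ℝ) + 1) * η) ^ (κ * κ) ≤
      (C0 / η) ^ (κ * κ) * (if i = l then (η / δ) ^ (κ * κ) else 1) := by
    intro i l
    by_cases h : i = l
    · rw [if_pos h, h, sub_self, ← Real.mul_rpow hCη hηδ]
      apply Real.rpow_le_rpow (hz 0) _ hκ
      refine h0.trans (le_of_eq ?_)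
      field_simp
    · rw [if_neg h, mul_one]
      apply Real.rpow_le_rpow (hz _) _ hκ
      have h2 : 2 * (((i : ℕ) : ℝ) + 1) * η - 2 * (((l : ℕ) : ℝ) + 1) * η =
          2 * ((((i : ℕ) : ℤ) - ((l : ℕ) : ℤ) : ℤ) : ℝ) * η := by push_cast; ring
      have h3 : ((i : ℕ) : ℤ) - ((l : ℕ) : ℤ) ≠ 0 := by
        intro h4
        apply h
        apply Fin.ext
        omega
      have h4 : (1 : ℝ) ≤ |((((i : ℕ) : ℤ) - ((l : ℕ) : ℤ) : ℤ) : ℝ)| := by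
        have := Int.one_le_abs h3
        exact_mod_cast this
      have h5 : |((((i : ℕ) : ℤ) - ((l : ℕ) : ℤ) : ℤ) : ℝ)| ≤ N := by
        have hi := i.isLt
        have hl := l.isLt
        have : |((i : ℕ) : ℤ) - ((l : ℕ) : ℤ)| ≤ (N : ℤ) := by
          rw [abs_le]
          constructor <;> omega
        exact_mod_cast this
      apply hx
      · rw [h2, abs_mul, abs_mul, abs_of_pos hη, abs_two]
        nlinarith
      · rw [h2, abs_mul, abs_mul, abs_of_pos hη, abs_two]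
        refine le_trans ?_ hA
        nlinarith [mul_le_mul h5 hη1 hη.le hN0.le]
  have h2 : ∏ i : Fin N, ∏ l : Fin N,
      z (2 * (((i : ℕ) : ℝ) + 1) * η - 2 * (((l : ℕ) : ℝ) + 1) * η) ^ (κ * κ) ≤
      ∏ i : Fin N, ∏ l : Fin N, ((C0 / η) ^ (κ * κ) * (if i = l then (η / δ) ^ (κ * κ) else 1)) := by
    refine Finset.prod_le_prod (fun i _ => Finset.prod_nonneg fun l _ => Real.rpow_nonneg (hz _) _)
      fun i _ => ?_
    exact Finset.prod_le_prod (fun l _ => Real.rpow_nonneg (hz _) _) fun l _ => h1 i l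
  refine h2.trans ?_
  apply le_of_eq
  simp only [Finset.prod_mul_distrib, Finset.prod_const, Finset.card_univ, Fintype.card_fin,
    Finset.prod_ite_eq, Finset.mem_univ, if_true]
  rw [← Real.rpow_natCast, ← Real.rpow_natCast, ← Real.rpow_natCast, ← Real.rpow_mul hCη,
    ← Real.rpow_mul hCη, ← Real.rpow_mul hηδ]
  congr 2 <;> ring

lemma sqrt_ge3 {X : ℝ} {N : ℕ} (hX : (6 * (N : ℝ)) ^ 2 ≤ X) : 6 * (N : ℝ) ≤ X ^ ((1 : ℝ) / 2) := by
  have h1 : (0 : ℝ) ≤ 6 * (N : ℝ) := by positivity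
  calc 6 * (N : ℝ) = ((6 * (N : ℝ)) ^ 2) ^ ((1 : ℝ) / 2) := by
        rw [← Real.rpow_natCast, ← Real.rpow_mul h1]
        norm_num
    _ ≤ X ^ ((1 : ℝ) / 2) := Real.rpow_le_rpow (by positivity) hX (by norm_num)

/-- comparison with `nu` -/
lemma nu_ge (V : ℝ) (hV : 0 < V) (hA : 0 < (aC V).re) : ∃ C : ℝ, 0 < C ∧ ∀ δ c : ℝ, 0 < δ → δ ≤ 1 / 16 → 0 < c →
    c ^ (-(2 * V)) * δ ^ (-V ^ 2) / Real.sqrt (Real.log (1 / δ)) ≤ C * nu V δ c := by
  refine ⟨2 * V * Real.sqrt Real.pi * 2 ^ (V ^ 2) / (aC V).re, by positivity, ?_⟩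
  intro δ c hδ hδ1 hc
  have hl : 0 < Real.log (1 / (2 * δ)) := by
    apply Real.log_pos
    rw [lt_div_iff₀ (by positivity)]
    linarith
  have hl' : Real.log (1 / (2 * δ)) ≤ Real.log (1 / δ) := by
    apply Real.log_le_log (by positivity)
    apply one_div_le_one_div_of_le hδ
    linarith
  have hs : 0 < Real.sqrt (Real.log (1 / (2 * δ))) := Real.sqrt_pos.2 hl
  have hs' : Real.sqrt (Real.log (1 / (2 * δ))) ≤ Real.sqrt (Real.log (1 / δ)) := Real.sqrt_le_sqrt hl'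
  have hpi : 0 < Real.sqrt Real.pi := Real.sqrt_pos.2 Real.pi_pos
  have e1 : (2 * δ) ^ (-V ^ 2) = (2 ^ (V ^ 2))⁻¹ * δ ^ (-V ^ 2) := by
    rw [Real.mul_rpow (by norm_num) hδ.le, Real.rpow_neg (by norm_num : (0:ℝ) ≤ 2)]
  have e2 : 2 * V * Real.sqrt Real.pi * 2 ^ (V ^ 2) / (aC V).re * nu V δ c =
      c ^ (-(2 * V)) * δ ^ (-V ^ 2) / Real.sqrt (Real.log (1 / (2 * δ))) := by
    unfold nu
    rw [e1, Real.sqrt_mul Real.pi_pos.le]
    have h2 : (0:ℝ) < 2 ^ (V ^ 2) := by positivity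
    field_simp
  rw [e2]
  apply div_le_div_of_nonneg_left (by positivity) hs hs'

lemma mz_cont {δ : ℝ} (h0 : 0 < δ) (h : δ ≤ 1 / 16) : Continuous (mz δ) := by
  rw [continuous_iff_continuousAt]
  intro t
  unfold mz
  have h1 : pw δ t ≠ 1 := by
    intro h2
    have := congrArg Complex.re h2
    simp [pw] at this
    linarith
  have h3 : ContinuousAt riemannZeta (pw δ t) := (differentiableAt_riemannZeta h1).continuousAt
  have h4 : Continuous fun s : ℝ => pw δ s := by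
    unfold pw
    fun_prop
  exact (ContinuousAt.comp (f := fun s : ℝ => pw δ s) h3 h4.continuousAt).norm

lemma meas_gt {δ : ℝ} (h0 : 0 < δ) (h : δ ≤ 1 / 16) (c : ℝ) : MeasurableSet {t : ℝ | c < mz δ t} :=
  (isOpen_lt continuous_const (mz_cont h0 h)).measurableSet

/-- from the integral over the points with large values to the measure -/
lemma finish {S G : Set ℝ} {X δ D B : ℝ} (h0 : 0 < δ) (h1 : δ ≤ 1 / 16) (hX0 : 0 < X) (c : ℝ)
    (hSm : MeasurableSet S) (hSs : S ⊆ Set.Icc 0 X)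
    (hSv : volume (Set.Icc 0 X \ S) ≤ ENNReal.ofReal (δ ^ D * X))
    (f : ℝ → ℝ) (hf : IntegrableOn f (S ∩ {t : ℝ | c < mz δ t}))
    (hf0 : ∀ t ∈ S ∩ {t : ℝ | c < mz δ t}, 0 ≤ f t)
    (hf1 : ∀ t ∈ S ∩ {t : ℝ | c < mz δ t}, t ∈ G → 1 ≤ f t) (hB0 : 0 ≤ B)
    (hB : ∫ t in S ∩ {t : ℝ | c < mz δ t}, f t ≤ X * B) :
    volume {t : ℝ | 0 ≤ t ∧ t ≤ X ∧ c < mz δ t ∧ t ∈ G} ≤ ENNReal.ofReal (X * (δ ^ D + B)) := by
  have hSf : volume (S ∩ {t : ℝ | c < mz δ t}) ≠ ⊤ := by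
    refine ne_top_of_le_ne_top ?_ (measure_mono (Set.inter_subset_left.trans hSs))
    rw [Real.volume_Icc]
    exact ENNReal.ofReal_ne_top
  have hmk := markov (E := G) (hSm.inter (meas_gt h0 h1 c)) hSf hf hf0 hf1 hB
  have hcov : {t : ℝ | 0 ≤ t ∧ t ≤ X ∧ c < mz δ t ∧ t ∈ G} ⊆
      (Set.Icc 0 X \ S) ∪ (G ∩ (S ∩ {t : ℝ | c < mz δ t})) := by
    rintro t ⟨t1, t2, t3, t4⟩
    by_cases hS : t ∈ S
    · exact Or.inr ⟨t4, hS, t3⟩
    · exact Or.inl ⟨⟨t1, t2⟩, hS⟩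
  calc _ ≤ volume ((Set.Icc 0 X \ S) ∪ (G ∩ (S ∩ {t : ℝ | c < mz δ t}))) := measure_mono hcov
    _ ≤ volume (Set.Icc 0 X \ S) + volume (G ∩ (S ∩ {t : ℝ | c < mz δ t})) := measure_union_le _ _
    _ ≤ ENNReal.ofReal (δ ^ D * X) + ENNReal.ofReal (X * B) := add_le_add hSv hmk
    _ = _ := by
        rw [← ENNReal.ofReal_add (by positivity) (by positivity)]
        congr 1
        ring

/-- powers of the scale -/
lemma rpow_scale (C0 δ k x : ℝ) (hC : 0 < C0) (hδ : 0 < δ) :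
    (C0 / (δ * Real.exp k)) ^ x = C0 ^ x * (δ ^ (-x) * Real.exp (-(k * x))) := by
  rw [Real.div_rpow hC.le (by positivity), Real.mul_rpow hδ.le (Real.exp_pos k).le, Real.rpow_neg hδ.le,
    ← Real.exp_mul, Real.exp_neg, div_eq_mul_inv, mul_inv]

end Pool.Agent.V5helper15.EG
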