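import Pool.Agent.V5helper15.EG.Bas
import Pool.Agent.V5helper68.PL.NEARM

set_option autoImplicit false

/-!
# Project EG (helper51): job NEARC (helper15)
-/

namespace Pool.Agent.V5helper15.EG

open Finset Filter MeasureTheory Topology
open Pool.Agent.V5helper51.PL Pool.Agent.V5helper51.EG Pool.Agent.V5helper68.PL
open Pool.Agent.N748.MG Pool.Agent.N748.MJ

/-- the shifts -/
noncomputable def hm (N : ℕ) (h η : ℝ) : Fin (N + 1) → ℝ :=
  Fin.cons h fun i : Fin N => 2 * (((i : ℕ) : ℝ) + 1) * η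

/-- the exponents -/
noncomputable def km (N : ℕ) (V : ℝ) : Fin (N + 1) → ℝ :=
  Fin.cons V fun _ : Fin N => -(V / N)

/-- a constant product of powers with a negative exponent -/
lemma prod_neg' (z : ℝ → ℝ) (V P m : ℝ) (N : ℕ) (hN : 1 ≤ N) (hV : 0 < V) (hP : 0 < P) (hm : 0 ≤ m)
    (g : Fin N → ℝ) (hz : ∀ i, P ≤ z (g i)) (e : ℝ) (he : e = -(m * (V * V / N))) :
    ∏ i : Fin N, z (g i) ^ e ≤ P ^ (-(m * V ^ 2)) := by
  have hN0 : (0 : ℝ) < N := by exact_mod_cast hN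
  have h1 : ∀ i ∈ Finset.univ, z (g i) ^ e ≤ P ^ e := by
    intro i _
    apply Real.rpow_le_rpow_of_nonpos hP (hz i)
    rw [he]
    have : 0 ≤ m * (V * V / N) := by positivity
    linarith
  refine (Finset.prod_le_prod (fun i _ => Real.rpow_nonneg (hP.le.trans (hz i)) _) h1).trans ?_
  rw [Finset.prod_const, Finset.card_univ, Fintype.card_fin, ← Real.rpow_natCast,
    ← Real.rpow_mul hP.le, he]
  apply le_of_eq
  congr 1
  field_simp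

/-- the double product -/
lemma prod_nc (z : ℝ → ℝ) (C0 c0 η δ V A h : ℝ) (N : ℕ) (hN : 1 ≤ N) (hη : 0 < η) (hη1 : η ≤ 3)
    (hδ : 0 < δ) (hC0 : 1 ≤ C0) (hc0 : 0 < c0) (hz : ∀ x, 0 ≤ z x) (hV : 0 < V)
    (hhη : |h| ≤ η) (hze : ∀ x, z (-x) = z x)
    (h0 : z 0 ≤ C0 / δ) (hh : z h ≤ C0 * Real.exp 1 / η) (hA : 6 * (N : ℝ) + 3 ≤ A)
    (hx : ∀ x, η ≤ |x| → |x| ≤ A → z x ≤ C0 / η)
    (hx' : ∀ x, η ≤ |x| → |x| ≤ (2 * N + 1) * η → c0 / ((2 * N + 1) * η) ≤ z x) :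
    z 0 ^ (V ^ 2) * (∏ j, z (hm N h η j) ^ (2 * (V * km N V j))) *
      ∏ j, ∏ l, z (hm N h η j - hm N h η l) ^ (km N V j * km N V l) ≤
      (C0 / δ) ^ (V ^ 2) * ((C0 * Real.exp 1 / η) ^ (2 * V ^ 2) *
        (c0 / ((2 * N + 1) * η)) ^ (-(2 * V ^ 2))) *
      ((C0 / δ) ^ (V ^ 2) * (c0 / ((2 * N + 1) * η)) ^ (-(1 * V ^ 2)) *
        ((c0 / ((2 * N + 1) * η)) ^ (-(1 * V ^ 2)) * ((C0 / η) ^ (V ^ 2) * (η / δ) ^ (V ^ 2 / N)))) := by
  have hN0 : (0 : ℝ) < N := by exact_mod_cast hN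
  have hCη : 0 ≤ C0 / η := by positivity
  simp only [Fin.prod_univ_succ, hm, km, Fin.cons_zero, Fin.cons_succ]
  set P := c0 / ((2 * N + 1) * η) with hPdef
  have hP : 0 < P := by positivity
  have hsub : (h : ℝ) - h = 0 := sub_self h
  have e0 : z 0 ^ (V ^ 2) ≤ (C0 / δ) ^ (V ^ 2) :=
    Real.rpow_le_rpow (hz 0) h0 (by positivity)
  have e1 : z 0 ^ (V * V) ≤ (C0 / δ) ^ (V ^ 2) := by
    rw [← sq]
    exact e0
  have e2 : z h ^ (2 * (V * V)) ≤ (C0 * Real.exp 1 / η) ^ (2 * V ^ 2) := by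
    rw [← sq]
    exact Real.rpow_le_rpow (hz h) hh (by positivity)
  have hsh : ∀ i : Fin N, P ≤ z (2 * (((i : ℕ) : ℝ) + 1) * η) := by
    intro i
    have hi : ((i : ℕ) : ℝ) + 1 ≤ N := by exact_mod_cast i.isLt
    have hi0 : (0 : ℝ) ≤ ((i : ℕ) : ℝ) := by positivity
    apply hx'
    · rw [abs_of_pos (by positivity)]
      nlinarith
    · rw [abs_of_pos (by positivity)]
      nlinarith
  have hsh2 : ∀ i : Fin N, η ≤ |2 * (((i : ℕ) : ℝ) + 1) * η - h| ∧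
      |2 * (((i : ℕ) : ℝ) + 1) * η - h| ≤ (2 * N + 1) * η := by
    intro i
    have hi : ((i : ℕ) : ℝ) + 1 ≤ N := by exact_mod_cast i.isLt
    have hi0 : (0 : ℝ) ≤ ((i : ℕ) : ℝ) := by positivity
    obtain ⟨h1, h2⟩ := abs_le.1 hhη
    have h3 : η ≤ 2 * (((i : ℕ) : ℝ) + 1) * η - h := by nlinarith
    rw [abs_of_pos (by linarith)]
    refine ⟨h3, ?_⟩
    nlinarith
  have hsh3 : ∀ i : Fin N, P ≤ z (2 * (((i : ℕ) : ℝ) + 1) * η - h) := fun i =>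
    hx' _ (hsh2 i).1 (hsh2 i).2
  have hsh4 : ∀ i : Fin N, P ≤ z (h - 2 * (((i : ℕ) : ℝ) + 1) * η) := by
    intro i
    rw [← hze, neg_sub]
    exact hsh3 i
  have f1 := prod_neg' z V P 2 N hN hV hP (by norm_num) (fun i => 2 * (((i : ℕ) : ℝ) + 1) * η) hsh
    (2 * (V * -(V / N))) (by ring)
  have f2 := prod_neg' z V P 1 N hN hV hP (by norm_num) (fun i => h - 2 * (((i : ℕ) : ℝ) + 1) * η) hsh4
    (V * -(V / N)) (by ring)
  have f4 := prod_neg' z V P 1 N hN hV hP (by norm_num) (fun i => 2 * (((i : ℕ) : ℝ) + 1) * η - h) hsh3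
    (-(V / N) * V) (by ring)
  have e4 := block3 z C0 η δ (-(V / N)) A N hN hη hη1 hδ hC0 hz h0 (by linarith) hx
  have e4' : ∏ i : Fin N, ∏ l : Fin N,
      z (2 * (((i : ℕ) : ℝ) + 1) * η - 2 * (((l : ℕ) : ℝ) + 1) * η) ^ (-(V / N) * -(V / N)) ≤
      (C0 / η) ^ (V ^ 2) * (η / δ) ^ (V ^ 2 / N) := by
    refine e4.trans (le_of_eq ?_)
    congr 2
    · field_simp
    · field_simp
  rw [Finset.prod_mul_distrib, hsub]
  have nn : ∀ (g : Fin N → ℝ) (e : ℝ), 0 ≤ ∏ i : Fin N, z (g i) ^ e := fun g e =>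
    Finset.prod_nonneg fun i _ => Real.rpow_nonneg (hz _) _
  have p3 : 0 ≤ ∏ i : Fin N, ∏ l : Fin N,
      z (2 * (((i : ℕ) : ℝ) + 1) * η - 2 * (((l : ℕ) : ℝ) + 1) * η) ^ (-(V / N) * -(V / N)) :=
    Finset.prod_nonneg fun i _ => Finset.prod_nonneg fun l _ => Real.rpow_nonneg (hz _) _
  have q0 : 0 ≤ z 0 ^ (V * V) := Real.rpow_nonneg (hz _) _
  have q1 : 0 ≤ z 0 ^ (V ^ 2) := Real.rpow_nonneg (hz _) _
  have qh : 0 ≤ z h ^ (2 * (V * V)) := Real.rpow_nonneg (hz _) _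
  have P1 : 0 ≤ P ^ (-(1 * V ^ 2)) := by positivity
  have P2 : 0 ≤ P ^ (-(2 * V ^ 2)) := by positivity
  exact mul_le_mul (mul_le_mul e0 (mul_le_mul e2 f1 (nn _ _) (by positivity))
      (mul_nonneg qh (nn _ _)) (by positivity))
    (mul_le_mul (mul_le_mul e1 f2 (nn _ _) (by positivity))
      (mul_le_mul f4 e4' p3 P1) (mul_nonneg (nn _ _) p3) (by positivity))
    (mul_nonneg (mul_nonneg q0 (nn _ _)) (mul_nonneg (nn _ _) p3)) (by positivity)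

/-- the exponents -/
lemma expo_nc (C0 c0 δ V k ε c K : ℝ) (N : ℕ) (hδ : 0 < δ) (hC0 : 1 ≤ C0) (hc0 : 0 < c0)
    (hc : 0 < c) (hK : 0 < K) :
    c ^ (-(2 * V)) * (c * K * Real.exp (-(V - ε) * k)) ^ (2 * V) * (c ^ (-(2 * V)) *
      ((C0 / δ) ^ (V ^ 2) * ((C0 * Real.exp 1 / (δ * Real.exp k)) ^ (2 * V ^ 2) *
        (c0 / ((2 * N + 1) * (δ * Real.exp k))) ^ (-(2 * V ^ 2))) *
      ((C0 / δ) ^ (V ^ 2) * (c0 / ((2 * N + 1) * (δ * Real.exp k))) ^ (-(1 * V ^ 2)) *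
        ((c0 / ((2 * N + 1) * (δ * Real.exp k))) ^ (-(1 * V ^ 2)) *
          ((C0 / (δ * Real.exp k)) ^ (V ^ 2) * (δ * Real.exp k / δ) ^ (V ^ 2 / N)))))) =
      (C0 ^ (V ^ 2) * ((C0 * Real.exp 1) ^ (2 * V ^ 2) * (c0 / (2 * N + 1)) ^ (-(2 * V ^ 2))) *
        (C0 ^ (V ^ 2) * (c0 / (2 * N + 1)) ^ (-(1 * V ^ 2)) * ((c0 / (2 * N + 1)) ^ (-(1 * V ^ 2)) *
          C0 ^ (V ^ 2)))) *
      (K ^ (2 * V) * (c ^ (-(2 * V)) * δ ^ (-V ^ 2)) *
        Real.exp (-(V ^ 2 - V ^ 2 / N - 2 * V * ε) * k)) := by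
  have hC : 0 < C0 := by linarith
  have e1 : (C0 / δ) ^ (V ^ 2) = C0 ^ (V ^ 2) * δ ^ (-V ^ 2) := by
    rw [Real.div_rpow hC.le hδ.le, Real.rpow_neg hδ.le, div_eq_mul_inv]
  have e2 : (δ * Real.exp k / δ) ^ (V ^ 2 / N) = Real.exp (k * (V ^ 2 / N)) := by
    rw [mul_div_cancel_left₀ _ hδ.ne', ← Real.exp_mul]
  have e3 : c ^ (-(2 * V)) * (c * K * Real.exp (-(V - ε) * k)) ^ (2 * V) =
      K ^ (2 * V) * Real.exp (-(V - ε) * k * (2 * V)) := by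
    rw [Real.mul_rpow (by positivity) (Real.exp_pos _).le, Real.mul_rpow hc.le hK.le, ← Real.exp_mul,
      Real.rpow_neg hc.le]
    have : c ^ (2 * V) ≠ 0 := by positivity
    field_simp
  have e4 : ∀ x : ℝ, (c0 / ((2 * N + 1) * (δ * Real.exp k))) ^ x =
      (c0 / (2 * N + 1)) ^ x * (δ ^ (-x) * Real.exp (-(k * x))) := by
    intro x
    rw [← rpow_scale _ δ k x (by positivity) hδ, div_div]
  rw [e1, e2, e3, e4, e4, rpow_scale C0 δ k _ hC hδ, rpow_scale _ δ k _ (by positivity) hδ]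
  have e5 : δ ^ (-V ^ 2) = δ ^ (-V ^ 2) * δ ^ (-(2 * V ^ 2)) * δ ^ (-(-(2 * V ^ 2))) * δ ^ (-V ^ 2) *
      δ ^ (-(-(1 * V ^ 2))) * δ ^ (-(-(1 * V ^ 2))) * δ ^ (-(V ^ 2)) := by
    rw [← Real.rpow_add hδ, ← Real.rpow_add hδ, ← Real.rpow_add hδ, ← Real.rpow_add hδ,
      ← Real.rpow_add hδ, ← Real.rpow_add hδ]
    congr 1
    ring
  have e6 : Real.exp (-(V ^ 2 - V ^ 2 / N - 2 * V * ε) * k) = Real.exp (-(V - ε) * k * (2 * V)) *
      Real.exp (-(k * (2 * V ^ 2))) * Real.exp (-(k * -(2 * V ^ 2))) *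
      Real.exp (-(k * -(1 * V ^ 2))) * Real.exp (-(k * -(1 * V ^ 2))) * Real.exp (-(k * V ^ 2)) *
      Real.exp (k * (V ^ 2 / N)) := by
    rw [← Real.exp_add, ← Real.exp_add, ← Real.exp_add, ← Real.exp_add, ← Real.exp_add, ← Real.exp_add]
    congr 1
    ring
  rw [e6]
  conv_rhs => rw [e5]
  ring

/-- NEARC -/
theorem t_NEARC (hA : ∀ V : ℝ, 0 < V → 0 < (aC V).re) (hT : S_TLT) (hZ : S_ZB1) : S_NEARC := by
  intro V D ε hV hD hε N hN
  have hN1 : (1 : ℝ) ≤ N := by exact_mod_cast hN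
  have hN0 : (0 : ℝ) < N := by linarith
  obtain ⟨c0, C0', δ1, hc0, hC0', hδ1, hZ1⟩ := hZ (6 * (N : ℝ) + 3) (by linarith)
  obtain ⟨C0, hC0⟩ : ∃ C0 : ℝ, C0 = max C0' 1 := ⟨_, rfl⟩
  have hC01 : 1 ≤ C0 := by rw [hC0]; exact le_max_right _ _
  have hC0le : C0' ≤ C0 := by rw [hC0]; exact le_max_left _ _
  have hC0p : 0 < C0 := by linarith
  obtain ⟨C2, hC2, hnu⟩ := nu_ge V hV (hA V hV)
  obtain ⟨C1, hC1, lam, δ0, hlam, hδ0, hδ0', hEv⟩ := hT (N + 1) V V D hV hV hD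
  obtain ⟨C3, hC3⟩ : ∃ C3 : ℝ, C3 = (C0 ^ (V ^ 2) * ((C0 * Real.exp 1) ^ (2 * V ^ 2) *
      (c0 / (2 * N + 1)) ^ (-(2 * V ^ 2))) *
        (C0 ^ (V ^ 2) * (c0 / (2 * N + 1)) ^ (-(1 * V ^ 2)) * ((c0 / (2 * N + 1)) ^ (-(1 * V ^ 2)) *
          C0 ^ (V ^ 2)))) := ⟨_, rfl⟩
  have hC3p : 0 < C3 := by rw [hC3]; positivity
  refine ⟨C1 * C3 * C2, by positivity, lam, min δ0 δ1, hlam, lt_min hδ0 hδ1,
    (min_le_left _ _).trans hδ0', ?_⟩
  filter_upwards [hEv, eventually_ge_atTop ((6 * (N : ℝ)) ^ 2), eventually_gt_atTop 0] with X hX hX2 hX0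
  intro δ hδ hδle hlog c K hc hK k hk hη1 h hh1 hh2
  have d1 : δ ≤ δ0 := hδle.trans (min_le_left _ _)
  have d2 : δ ≤ δ1 := hδle.trans (min_le_right _ _)
  have d4 : δ ≤ 1 / 16 := d1.trans hδ0'
  have hz : ∀ x, 0 ≤ z1 δ x := fun x => norm_nonneg _
  have hz0 : z1 δ 0 ≤ C0 / δ := by
    have := (hZ1 δ hδ d2 0 (by rw [abs_zero]; positivity)).2
    rw [abs_zero, max_eq_right hδ.le] at this
    rw [le_div_iff₀ hδ]
    exact this.trans hC0le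
  obtain ⟨η, hη⟩ : ∃ η : ℝ, η = δ * Real.exp k := ⟨_, rfl⟩
  have hη0 : 0 < η := by rw [hη]; positivity
  have hh1' : η / Real.exp 1 ≤ |h| := by
    rw [hη, mul_div_assoc, ← Real.exp_sub]
    exact hh1
  rw [← hη] at hη1 hh2
  have hηδ : δ ≤ η := by
    rw [hη]
    have := Real.one_le_exp hk
    nlinarith
  have hzη : ∀ x, η ≤ |x| → |x| ≤ 6 * (N : ℝ) + 3 → z1 δ x ≤ C0 / η := by
    intro x hx1 hx2
    have h1 := (hZ1 δ hδ d2 x hx2).2
    rw [le_div_iff₀ hη0]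
    have h2 : η ≤ max |x| δ := hx1.trans (le_max_left _ _)
    have h3 := mul_le_mul_of_nonneg_left h2 (hz x)
    linarith
  have hzη' : ∀ x, η ≤ |x| → |x| ≤ (2 * (N : ℝ) + 1) * η → c0 / ((2 * N + 1) * η) ≤ z1 δ x := by
    intro x hx1 hx2
    have hx3 : |x| ≤ 6 * (N : ℝ) + 3 := by nlinarith
    have h1 := (hZ1 δ hδ d2 x hx3).1
    rw [div_le_iff₀ (by positivity)]
    have h2 : max |x| δ ≤ (2 * (N : ℝ) + 1) * η := by
      apply max_le hx2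
      nlinarith
    have h3 := mul_le_mul_of_nonneg_left h2 (hz x)
    linarith
  have hzh : z1 δ h ≤ C0 * Real.exp 1 / η := by
    have h1 := (hZ1 δ hδ d2 h (by linarith)).2
    rw [le_div_iff₀ hη0]
    have h2 : η / Real.exp 1 ≤ max |h| δ := hh1'.trans (le_max_left _ _)
    have h3 := mul_le_mul_of_nonneg_left h2 (hz h)
    have h4 : z1 δ h * (η / Real.exp 1) ≤ C0 := by linarith
    rw [← mul_div_assoc, div_le_iff₀ (Real.exp_pos 1)] at h4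
    exact h4
  obtain ⟨S, hSm, hSs, hSv, hSp, hSk⟩ := hX δ hδ d1 hlog (hm N h η) (by
    intro i
    refine le_trans ?_ (sqrt_ge3 hX2)
    refine Fin.cases ?_ (fun i => ?_) i
    · simp only [hm, Fin.cons_zero]
      linarith
    · simp only [hm, Fin.cons_succ]
      have hi : ((i : ℕ) : ℝ) + 1 ≤ N := by exact_mod_cast i.isLt
      rw [abs_of_pos (by positivity)]
      nlinarith [mul_le_mul hi hη1 hη0.le hN0.le])
  obtain ⟨hint, hle⟩ := hSk V c (km N V) le_rfl le_rfl hc (by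
    intro i
    refine Fin.cases ?_ (fun i => ?_) i
    · simp only [km, Fin.cons_zero, abs_of_pos hV]; exact le_rfl
    · simp only [km, Fin.cons_succ]
      rw [abs_neg, abs_of_pos (by positivity)]
      exact div_le_self hV.le hN1)
  have hprod := prod_nc (z1 δ) C0 c0 η δ V (6 * (N : ℝ) + 3) h N hN hη0 hη1 hδ hC01 hc0 hz hV
    hh2 (z1_neg δ) hz0 hzh le_rfl hzη hzη'
  obtain ⟨b, hb'⟩ : ∃ b : ℝ, b = c * K * Real.exp (-(V - ε) * k) := ⟨_, rfl⟩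
  have hb0 : 0 < b := by rw [hb']; positivity
  have hex := expo_nc C0 c0 δ V k ε c K N hδ hC01 hc0 hc hK
  rw [← hb', ← hη, ← hC3] at hex
  rw [← hb', ← hη]
  have hl0 : 0 ≤ Real.sqrt (Real.log (1 / δ)) := Real.sqrt_nonneg _
  have hnu0 : 0 ≤ nu V δ c := by
    unfold nu
    have := hA V hV
    positivity
  refine finish (G := {t : ℝ | c < mz δ (t + h) ∧ Gm δ N η t ≤ b}) hδ d4 hX0 c hSm hSs hSv
    (fun t => c ^ (-(2 * V)) * b ^ (2 * V) * ∏ i, mz δ (t + hm N h η i) ^ (2 * km N V i))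
    (hint.const_mul _) ?_ ?_ (by positivity) ?_
  · intro t _
    apply mul_nonneg (by positivity)
    exact Finset.prod_nonneg fun i _ => Real.rpow_nonneg (norm_nonneg _) _
  · rintro t ⟨htS, t3⟩ ⟨t4, t5⟩
    have hGp : 0 < Gm δ N η t := by
      unfold Gm
      refine Finset.prod_pos fun i hi => ?_
      rw [Finset.mem_range] at hi
      have := (hSp t htS).2 (Fin.succ ⟨i, hi⟩)
      simp only [hm, Fin.cons_succ] at this
      exact Real.rpow_pos_of_pos this _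
    have e1 : ∏ i, mz δ (t + hm N h η i) ^ (2 * km N V i) =
        mz δ (t + h) ^ (2 * V) * (Gm δ N η t ^ (2 * V))⁻¹ := by
      have g1 := Gm_rpow δ η t (-V) N
      have g2 : (2 : ℝ) * -V = -(2 * V) := by ring
      rw [g2, Real.rpow_neg hGp.le] at g1
      rw [Fin.prod_univ_succ, g1]
      simp only [hm, km, Fin.cons_zero, Fin.cons_succ]
      congr 2
      funext i
      congr 1
      ring
    change 1 ≤ c ^ (-(2 * V)) * b ^ (2 * V) * ∏ i, mz δ (t + hm N h η i) ^ (2 * km N V i)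
    rw [e1, Real.rpow_neg hc.le]
    have e2' : c ^ (2 * V) ≤ mz δ (t + h) ^ (2 * V) :=
      Real.rpow_le_rpow hc.le t4.le (by positivity)
    have e3 : Gm δ N η t ^ (2 * V) ≤ b ^ (2 * V) :=
      Real.rpow_le_rpow hGp.le t5 (by positivity)
    have p1 : 0 < c ^ (2 * V) := by positivity
    have p2 : 0 < Gm δ N η t ^ (2 * V) := by positivity
    have e4 : 1 ≤ (mz δ (t + h) ^ (2 * V) / c ^ (2 * V)) * (b ^ (2 * V) / Gm δ N η t ^ (2 * V)) :=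
      one_le_mul_of_one_le_of_one_le ((one_le_div p1).2 e2') ((one_le_div p2).2 e3)
    calc (1 : ℝ) ≤ _ := e4
      _ = _ := by field_simp
  · rw [integral_const_mul]
    have h1 := hle.trans (mul_le_mul_of_nonneg_left hprod
      (by positivity : 0 ≤ C1 * X / Real.sqrt (Real.log (1 / δ)) * c ^ (-(2 * V))))
    have h2 := hnu δ c hδ d4 hc
    calc c ^ (-(2 * V)) * b ^ (2 * V) * ∫ t in S ∩ {t : ℝ | c < mz δ t},
          ∏ i, mz δ (t + hm N h η i) ^ (2 * km N V i)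
        ≤ c ^ (-(2 * V)) * b ^ (2 * V) * _ :=
          mul_le_mul_of_nonneg_left h1 (by positivity)
      _ = C1 * X / Real.sqrt (Real.log (1 / δ)) * (c ^ (-(2 * V)) * b ^ (2 * V) * (c ^ (-(2 * V)) *
          ((C0 / δ) ^ (V ^ 2) * ((C0 * Real.exp 1 / η) ^ (2 * V ^ 2) *
            (c0 / ((2 * N + 1) * η)) ^ (-(2 * V ^ 2))) *
          ((C0 / δ) ^ (V ^ 2) * (c0 / ((2 * N + 1) * η)) ^ (-(1 * V ^ 2)) *
            ((c0 / ((2 * N + 1) * η)) ^ (-(1 * V ^ 2)) *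
              ((C0 / η) ^ (V ^ 2) * (η / δ) ^ (V ^ 2 / N))))))) := by ring
      _ = C1 * X / Real.sqrt (Real.log (1 / δ)) * (C3 *
          (K ^ (2 * V) * (c ^ (-(2 * V)) * δ ^ (-V ^ 2)) *
            Real.exp (-(V ^ 2 - V ^ 2 / N - 2 * V * ε) * k))) := by rw [hex]
      _ = X * (C1 * C3 * K ^ (2 * V) * Real.exp (-(V ^ 2 - V ^ 2 / N - 2 * V * ε) * k)) *
          (c ^ (-(2 * V)) * δ ^ (-V ^ 2) / Real.sqrt (Real.log (1 / δ))) := by ring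
      _ ≤ X * (C1 * C3 * K ^ (2 * V) * Real.exp (-(V ^ 2 - V ^ 2 / N - 2 * V * ε) * k)) *
          (C2 * nu V δ c) :=
          mul_le_mul_of_nonneg_left h2 (by positivity)
      _ = _ := by ring

end Pool.Agent.V5helper15.EG
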